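import Mathlib
import Pool.Agent.Lib.MP_694cb9_lc.Main

set_option autoImplicit false

namespace Pool.Agent.Results.MP_694cb9_lc.SacksCollapse

/-- **Sacks forcing can collapse `ω₁` over a model of ZF in which `ω₁` is inaccessible to reals.**

There are a countable transitive model `N` of ZF and an ordinal `κ` which is the first uncountable
ordinal of `N` such that

* in `N`, `ω₁` is inaccessible to reals: for every real `x` of `N` some `α < κ` is not countable
  in `L[x]`, that is, `ω₁^{L[x]} < ω₁`;
* Sacks forcing of `N` collapses `ω₁`: for every `N`-generic filter `Γ` on the Sacks forcing of `N`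
  there is in `N[Γ]` a function from a subset of `ω` onto `κ`;
* every condition belongs to an `N`-generic filter. -/
theorem result :
    ∃ (N : Set ZFSet.{0}) (κ : ZFSet.{0}), N.Countable ∧ SymExt.IsZF N ∧
      SymExt.IsOmegaOne N κ ∧ SymExt.InaccToReals N κ ∧
      (∀ Γ, SymExt.SacksGeneric N Γ → ∃ f ∈ SymExt.GenExt N Γ, SymExt.PSurj f κ) ∧
      (∀ p ∈ SymExt.Sacks N, ∃ Γ, SymExt.SacksGeneric N Γ ∧ p ∈ Γ) :=
  SymExt.Col.main

end Pool.Agent.Results.MP_694cb9_lc.SacksCollapse
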